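import Mathlib

set_option autoImplicit false
set_option maxRecDepth 100000

/-!
# Neighbor-locating colourings: a connected graph with `χ_NL(μ(G)) = χ_NL(G)`
-/

namespace Pool.Agent.Results.MP_03cbb9_co.SevenVertices

variable {V : Type} [Fintype V] [DecidableEq V]

/-- The set of colours in the neighbourhood of `v`. -/
def nbrColours (G : SimpleGraph V) [DecidableRel G.Adj] {k : ℕ} (c : V → Fin k) (v : V) :
    Finset (Fin k) :=
  (Finset.univ.filter (fun u => G.Adj v u)).image c

/-- `c` is a neighbor-locating colouring of `G`. -/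
def IsNL (G : SimpleGraph V) [DecidableRel G.Adj] {k : ℕ} (c : V → Fin k) : Prop :=
  (∀ u v, G.Adj u v → c u ≠ c v) ∧
    ∀ u v, u ≠ v → c u = c v → nbrColours G c u ≠ nbrColours G c v

/-- The neighbor-locating chromatic number. -/
noncomputable def chiNL (G : SimpleGraph V) [DecidableRel G.Adj] : ℕ :=
  sInf {k : ℕ | ∃ c : V → Fin k, IsNL G c}

/-- Adjacency of the Mycielski graph: `inl u` is the vertex `u` of `G`, `inr (inl u)` is its copy
`u'`, and `inr (inr ())` is the vertex `w`. -/
def mycAdj (G : SimpleGraph V) : V ⊕ (V ⊕ Unit) → V ⊕ (V ⊕ Unit) → Prop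
  | .inl u, .inl v => G.Adj u v
  | .inl u, .inr (.inl v) => G.Adj u v
  | .inr (.inl u), .inl v => G.Adj u v
  | .inr (.inl _), .inr (.inr _) => True
  | .inr (.inr _), .inr (.inl _) => True
  | _, _ => False

/-- The Mycielski graph `μ(G)`. -/
def mycielski (G : SimpleGraph V) : SimpleGraph (V ⊕ (V ⊕ Unit)) where
  Adj := mycAdj G
  symm := ⟨by
    rintro (u | u | u) (v | v | v) h
    all_goals first
      | exact SimpleGraph.Adj.symm (G := G) h
      | exact h⟩
  loopless := ⟨by
    rintro (u | u | u) h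
    · exact G.loopless.irrefl u h
    · exact h
    · exact h⟩

instance (G : SimpleGraph V) [DecidableRel G.Adj] : DecidableRel (mycielski G).Adj := fun u v => by
  rcases u with u | u | u <;> rcases v with v | v | v <;> simp only [mycielski, mycAdj] <;>
    infer_instance

omit [DecidableEq V] in
lemma IsNL.comp {G : SimpleGraph V} [DecidableRel G.Adj] {k l : ℕ} {c : V → Fin k} (hc : IsNL G c)
    (f : Fin k → Fin l) (hf : Function.Injective f) : IsNL G (f ∘ c) := by
  refine ⟨fun u v h e => hc.1 u v h (hf e), fun u v h e hn => ?_⟩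
  refine hc.2 u v h (hf e) ?_
  have h1 : ∀ w, nbrColours G (f ∘ c) w = (nbrColours G c w).image f := by
    intro w; unfold nbrColours; rw [Finset.image_image]
  rw [h1, h1] at hn
  exact Finset.image_injective hf hn

/-- The edges of the graph. -/
def edges : List (Fin 7 × Fin 7) :=
  [(0,4),(0,5),(1,4),(1,5),(2,3),(2,6),(3,6),(4,6),(5,6)]

/-- A connected graph on 7 vertices. -/
def graph : SimpleGraph (Fin 7) where
  Adj u v := (u, v) ∈ edges ∨ (v, u) ∈ edges
  symm := ⟨fun _ _ h => h.symm⟩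
  loopless := ⟨by unfold edges; decide +kernel⟩

instance : DecidableRel graph.Adj := fun u v =>
  inferInstanceAs (Decidable ((u, v) ∈ edges ∨ (v, u) ∈ edges))

lemma connected : graph.Connected := by
  have h6 : ∀ v : Fin 7, graph.Reachable v 6 := by
    have h46 : graph.Reachable 4 6 := (show graph.Adj 4 6 by decide).reachable
    have h56 : graph.Reachable 5 6 := (show graph.Adj 5 6 by decide).reachable
    intro v
    fin_cases v
    · exact (show graph.Adj 0 4 by decide).reachable.trans h46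
    · exact (show graph.Adj 1 4 by decide).reachable.trans h46
    · exact (show graph.Adj 2 6 by decide).reachable
    · exact (show graph.Adj 3 6 by decide).reachable
    · exact h46
    · exact h56
    · exact SimpleGraph.Reachable.refl _
  exact { preconnected := fun u v => (h6 u).trans (h6 v).symm, nonempty := ⟨0⟩ }

/-- A neighbor-locating 5-colouring of the Mycielski graph. -/
def mcol : Fin 7 ⊕ (Fin 7 ⊕ Unit) → Fin 5
  | .inl u => ![2, 4, 0, 3, 0, 3, 4] u
  | .inr (.inl u) => ![1, 2, 1, 2, 1, 3, 4] u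
  | .inr (.inr _) => 0

instance {k : ℕ} (G : SimpleGraph V) [DecidableRel G.Adj] (c : V → Fin k) :
    Decidable (IsNL G c) := by unfold IsNL; infer_instance

lemma mcol_NL : IsNL (mycielski graph) mcol := by decide +kernel

set_option synthInstance.maxSize 100000 in
lemma no_four : ∀ a b c d e f g : Fin 4, (a ≠ e ∧ a ≠ f ∧ b ≠ e ∧ b ≠ f ∧ c ≠ d ∧ c ≠ g ∧ d ≠ g ∧
    e ≠ g ∧ f ≠ g) → ¬ IsNL graph ![a, b, c, d, e, f, g] := by
  decide +kernel

lemma not_four (c : Fin 7 → Fin 4) : ¬ IsNL graph c := by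
  intro h
  have hc : c = ![c 0, c 1, c 2, c 3, c 4, c 5, c 6] := by
    funext i; fin_cases i <;> rfl
  have hp := h.1
  rw [hc] at h
  exact no_four (c 0) (c 1) (c 2) (c 3) (c 4) (c 5) (c 6) ⟨hp 0 4 (by decide), hp 0 5 (by decide),
    hp 1 4 (by decide), hp 1 5 (by decide), hp 2 3 (by decide), hp 2 6 (by decide),
    hp 3 6 (by decide), hp 4 6 (by decide), hp 5 6 (by decide)⟩ h

/-- A neighbor-locating 5-colouring of the graph. -/
def gcol : Fin 7 → Fin 5 := ![0, 1, 2, 3, 2, 3, 4]

lemma gcol_NL : IsNL graph gcol := by decide +kernel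

lemma chiNL_graph : chiNL graph = 5 := by
  apply le_antisymm
  · exact Nat.sInf_le (show 5 ∈ {k : ℕ | ∃ c : Fin 7 → Fin k, IsNL graph c} from ⟨gcol, gcol_NL⟩)
  · refine le_csInf (show {k : ℕ | ∃ c : Fin 7 → Fin k, IsNL graph c}.Nonempty from
      ⟨5, gcol, gcol_NL⟩) ?_
    rintro k ⟨c, hc⟩
    by_contra hlt
    push Not at hlt
    exact not_four _ (hc.comp (Fin.castLE (by omega : k ≤ 4)) (Fin.castLE_injective _))

lemma chiNL_mycielski : chiNL (mycielski graph) ≤ 5 :=
  Nat.sInf_le (show 5 ∈ {k : ℕ | ∃ c : Fin 7 ⊕ (Fin 7 ⊕ Unit) → Fin k, IsNL (mycielski graph) c} from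
    ⟨mcol, mcol_NL⟩)

/-- **Q1 fails.** There is a connected graph `G` on 7 vertices with `χ_NL(G) = 5` and
`χ_NL(μ(G)) ≤ 5`. -/
theorem result :
    (∃ (G : SimpleGraph (Fin 7)) (_ : DecidableRel G.Adj), G.Connected ∧ chiNL G = 5 ∧
      chiNL (mycielski G) ≤ 5) ∧
    ¬ ∀ (V : Type) [Fintype V] [DecidableEq V] (G : SimpleGraph V) [DecidableRel G.Adj],
      chiNL (mycielski G) = chiNL G + 1 := by
  refine ⟨⟨graph, inferInstance, connected, chiNL_graph, chiNL_mycielski⟩, fun h => ?_⟩
  have h1 := h (Fin 7) graph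
  have h2 := chiNL_graph
  have h3 := chiNL_mycielski
  omega

end Pool.Agent.Results.MP_03cbb9_co.SevenVertices
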